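import Pool.Agent.AT6.Stmts2
import Pool.Agent.Helper66_KF.Ring
import Pool.Agent.Helper50_PP.Ffa

/-!
# Squad AT6, row APX: the approximate theorem of Broué and Puig
-/

open scoped BigOperators

noncomputable section

namespace Pool.Agent.PP.T6.H3

open Pool.Agent.Helper51_AWC Pool.Agent.Helper79_WRA Pool.Agent.PP Pool.Agent.PP.KF
open Pool.Agent.PP.K9 Pool.Agent.PP.K9.H97 Pool.Agent.PP.H75 Pool.Agent.PP.T3 Pool.Agent.PP.T2

attribute [local instance] Ideal.Quotient.field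

section dv

variable {M : Ideal (integralClosure ℤ ℂ)} [M.IsMaximal]

theorem dv_add {m a b : ℂ} (ha : Dv M m a) (hb : Dv M m b) : Dv M m (a + b) := by
  obtain ⟨s, hs, rfl⟩ := ha
  obtain ⟨t, ht, rfl⟩ := hb
  exact ⟨s + t, (RM M).add_mem hs ht, by ring⟩

theorem dv_neg {m a : ℂ} (ha : Dv M m a) : Dv M m (-a) := by
  obtain ⟨s, hs, rfl⟩ := ha
  exact ⟨-s, (RM M).neg_mem hs, by ring⟩

theorem dv_sub {m a b : ℂ} (ha : Dv M m a) (hb : Dv M m b) : Dv M m (a - b) := by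
  rw [sub_eq_add_neg]
  exact dv_add ha (dv_neg hb)

theorem dv_mul {m a b : ℂ} (ha : a ∈ RM M) (hb : Dv M m b) : Dv M m (a * b) := by
  obtain ⟨t, ht, rfl⟩ := hb
  exact ⟨a * t, (RM M).mul_mem ha ht, by ring⟩

theorem dv_zero {m : ℂ} : Dv M m 0 := ⟨0, (RM M).zero_mem, by ring⟩

theorem dv_sum {ι : Type} {m : ℂ} (s : Finset ι) (f : ι → ℂ) (h : ∀ i ∈ s, Dv M m (f i)) :
    Dv M m (∑ i ∈ s, f i) := by
  classical
  induction s using Finset.induction_on with
  | empty => simpa using dv_zero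
  | insert a s ha ih =>
    rw [Finset.sum_insert ha]
    exact dv_add (h a (Finset.mem_insert_self a s))
      (ih fun i hi => h i (Finset.mem_insert_of_mem hi))

end dv

section grp

/-- a sum over a group of a function which is constant on the cosets of a subgroup -/
theorem sum_cosets {T : Type} [Group T] [Fintype T] (C : Subgroup T) (F : T → ℂ)
    (hF : ∀ t, ∀ c ∈ C, F (t * c) = F t) :
    ∑ t : T, F t = Nat.card C * ∑ᶠ q : T ⧸ C, F q.out := by
  classical
  rw [finsum_eq_sum_of_fintype, Finset.mul_sum,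
    ← Finset.sum_fiberwise_of_maps_to (s := Finset.univ) (t := (Finset.univ : Finset (T ⧸ C)))
      (g := fun t : T => (t : T ⧸ C)) (fun t _ => Finset.mem_univ _)]
  refine Finset.sum_congr rfl fun q _ => ?_
  have h1 : ∀ t ∈ Finset.univ.filter (fun t : T => (t : T ⧸ C) = q), F t = F q.out := by
    intro t ht
    have h2 := (Finset.mem_filter.1 ht).2
    have h3 : q.out⁻¹ * t ∈ C := by
      rw [← QuotientGroup.eq, QuotientGroup.out_eq']
      exact h2.symm
    have h4 := hF q.out _ h3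
    rwa [mul_inv_cancel_left] at h4
  rw [Finset.sum_congr rfl h1, Finset.sum_const, nsmul_eq_mul]
  congr 1
  norm_cast
  rw [Nat.card_eq_fintype_card]
  refine (Finset.card_bij (s := (Finset.univ : Finset C)) (fun c _ => q.out * (c : T)) ?_ ?_ ?_).symm
  · intro c _
    rw [Finset.mem_filter]
    refine ⟨Finset.mem_univ _, ?_⟩
    rw [QuotientGroup.mk_mul_of_mem _ c.2, QuotientGroup.out_eq']
  · intro a _ b _ h
    exact Subtype.ext (mul_left_cancel h)
  · intro t ht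
    have h2 := (Finset.mem_filter.1 ht).2
    have h3 : q.out⁻¹ * t ∈ C := by
      rw [← QuotientGroup.eq, QuotientGroup.out_eq']
      exact h2.symm
    exact ⟨⟨_, h3⟩, Finset.mem_univ _, mul_inv_cancel_left _ _⟩

/-- the sum over a group and the sum over an orbit -/
theorem sum_orbit {G : Type} [Group G] [Finite G] {H T : Subgroup G} [Fintype T] (v : G)
    (hH : ∀ t ∈ T, t * v * t⁻¹ ∈ H) (φ : H → ℂ) :
    ∑ t : T, φ ⟨t * v * (t : G)⁻¹, hH t t.2⟩ =
      Nat.card (T ⊓ Cu v : Subgroup G) *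
        ∑ᶠ (v' : H) (_ : ∃ t ∈ T, t * v * t⁻¹ = v'), φ v' := by
  classical
  have : Fintype H := Fintype.ofFinite H
  have e1 : (∑ᶠ (v' : H) (_ : ∃ t ∈ T, t * v * t⁻¹ = v'), φ v') =
      ∑ v' ∈ Finset.univ.filter (fun v' : H => ∃ t ∈ T, t * v * t⁻¹ = v'), φ v' := by
    refine (finsum_mem_eq_finite_toFinset_sum φ (s := {v' : H | ∃ t ∈ T, t * v * t⁻¹ = v'})
      (Set.toFinite _)).trans ?_
    refine Finset.sum_congr ?_ fun _ _ => rfl
    ext x
    simp
  rw [e1, Finset.mul_sum]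
  rw [← Finset.sum_fiberwise_of_maps_to (s := Finset.univ)
      (t := Finset.univ.filter (fun v' : H => ∃ t ∈ T, t * v * t⁻¹ = v'))
      (g := fun t : T => (⟨t * v * (t : G)⁻¹, hH t t.2⟩ : H)) (fun t _ => by
        rw [Finset.mem_filter]
        exact ⟨Finset.mem_univ _, t, t.2, rfl⟩)]
  refine Finset.sum_congr rfl fun v' hv' => ?_
  have h1 : ∀ t ∈ Finset.univ.filter
      (fun t : T => (⟨t * v * (t : G)⁻¹, hH t t.2⟩ : H) = v'),
      φ ⟨t * v * (t : G)⁻¹, hH t t.2⟩ = φ v' := by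
    intro t ht
    rw [(Finset.mem_filter.1 ht).2]
  rw [Finset.sum_congr rfl h1, Finset.sum_const, nsmul_eq_mul]
  congr 1
  norm_cast
  obtain ⟨t₀, ht₀, h0⟩ := (Finset.mem_filter.1 hv').2
  have : Fintype (T ⊓ Cu v : Subgroup G) := Fintype.ofFinite _
  rw [Nat.card_eq_fintype_card]
  refine (Finset.card_bij (s := (Finset.univ : Finset (T ⊓ Cu v : Subgroup G)))
    (fun c _ => (⟨t₀ * (c : G), T.mul_mem ht₀ c.2.1⟩ : T)) ?_ ?_ ?_).symm
  · intro c _
    rw [Finset.mem_filter]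
    refine ⟨Finset.mem_univ _, Subtype.ext ?_⟩
    have h2 : v * (c : G) = c * v := Subgroup.mem_centralizer_iff.1 c.2.2 v rfl
    change t₀ * (c : G) * v * (t₀ * (c : G))⁻¹ = v'
    rw [← h0, mul_assoc t₀, ← h2]
    group
  · intro a _ b _ h
    have h2 := congrArg Subtype.val h
    exact Subtype.ext (mul_left_cancel h2)
  · intro t ht
    have h2 : (t : G) * v * (t : G)⁻¹ = v' := congrArg Subtype.val (Finset.mem_filter.1 ht).2
    have h3 : t₀⁻¹ * (t : G) ∈ (T ⊓ Cu v : Subgroup G) := by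
      refine ⟨T.mul_mem (T.inv_mem ht₀) t.2, ?_⟩
      refine Subgroup.mem_centralizer_iff.2 fun x hx => ?_
      rw [Set.mem_singleton_iff.1 hx]
      rw [← h0] at h2
      have h4 : (t : G) * v = t₀ * v * t₀⁻¹ * t := by
        rw [← h2]
        group
      rw [mul_assoc t₀⁻¹, h4]
      group
    exact ⟨⟨_, h3⟩, Finset.mem_univ _, Subtype.ext (mul_inv_cancel_left _ _)⟩

/-- the index times the sum over an orbit is a sum over cosets -/
theorem orbit_cosets {G : Type} [Group G] [Finite G] {H T C : Subgroup G} (v : G)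
    (hC : C ≤ T ⊓ Cu v) (hH : ∀ t ∈ T, t * v * t⁻¹ ∈ H) (φ : H → ℂ) :
    (C.relIndex (T ⊓ Cu v) : ℂ) *
        ∑ᶠ (v' : H) (_ : ∃ t ∈ T, t * v * t⁻¹ = v'), φ v' =
      ∑ᶠ q : T ⧸ C.subgroupOf T,
        φ ⟨(q.out : T) * v * ((q.out : T) : G)⁻¹, hH _ (q.out : T).2⟩ := by
  classical
  have : Fintype T := Fintype.ofFinite T
  have h1 := sum_orbit v hH φ
  have h2 := sum_cosets (C.subgroupOf T) (fun t : T => φ ⟨t * v * (t : G)⁻¹, hH t t.2⟩) (by
    intro t c hc
    have h3 : (c : G) ∈ C := hc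
    have h4 : v * (c : G) = c * v := Subgroup.mem_centralizer_iff.1 (hC h3).2 v rfl
    congr 1
    refine Subtype.ext ?_
    change (t : G) * c * v * ((t : G) * c)⁻¹ = t * v * (t : G)⁻¹
    rw [mul_assoc (t : G), ← h4]
    group)
  have h3 : Nat.card (C.subgroupOf T) = Nat.card C :=
    Nat.card_congr (Subgroup.subgroupOfEquivOfLe (hC.trans inf_le_left)).toEquiv
  have h4 : (Nat.card C : ℂ) * (C.relIndex (T ⊓ Cu v) : ℂ) =
      (Nat.card (T ⊓ Cu v : Subgroup G) : ℂ) := by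
    rw [← Nat.cast_mul]
    congr 1
    have := Subgroup.card_mul_index (C.subgroupOf (T ⊓ Cu v))
    rw [Nat.card_congr (Subgroup.subgroupOfEquivOfLe hC).toEquiv] at this
    exact this
  have h5 : (Nat.card C : ℂ) ≠ 0 := Nat.cast_ne_zero.2 Nat.card_pos.ne'
  refine mul_left_cancel₀ h5 ?_
  rw [← mul_assoc, h4, ← h1, h2, h3]

theorem cen_le_Tg {G : Type} [Group G] [Finite G] {F : Type} [Field F] {V : Subgroup G} {γ : G → F}
    (hγ : Bx (Subgroup.centralizer (V : Set G)) γ) :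
    Subgroup.centralizer (V : Set G) ≤ Tg V γ := by
  intro c hc
  refine Subgroup.mem_inf.2 ⟨?_, ?_⟩
  · rw [Subgroup.mem_normalizer_iff]
    intro h
    constructor
    · intro hh
      have := (Subgroup.mem_centralizer_iff.1 hc) h hh
      rw [← this, mul_inv_cancel_right]
      exact hh
    · intro hh
      have := (Subgroup.mem_centralizer_iff.1 hc) _ hh
      have e : h = c * h * c⁻¹ := by
        have e2 : c * h * c⁻¹ * c = c * (c * h * c⁻¹) := this
        have e3 : c * h = c * (c * h * c⁻¹) := by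
          rw [← e2]
          group
        exact mul_left_cancel e3
      rw [e]
      exact hh
  · exact (cj_eq_iff _ _).1 (hγ.ix.inv hc)

theorem cen_le_Cu {G : Type} [Group G] {V : Subgroup G} {v : G} (hv : v ∈ V) :
    Subgroup.centralizer (V : Set G) ≤ Cu v :=
  Subgroup.centralizer_le (Set.singleton_subset_iff.2 hv)

end grp

section main

variable {M : Ideal (integralClosure ℤ ℂ)} [M.IsMaximal]

/-- restriction to a subgroup -/
theorem cg_res {ℓ : ℕ} {G : Type} [Group G] {θ : G → ℂ} (h : Cg M ℓ θ) (H : Subgroup G) :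
    Cg M ℓ (fun t : H => θ t) where
  cl := fun x y => h.cl x y
  rm := fun x => h.rm x
  cg := fun x w hw hc c => h.cg x w (by
    obtain ⟨n, hn⟩ := hw
    exact ⟨n, congrArg Subtype.val hn⟩) (congrArg Subtype.val hc) c

/-- the weights are in the local ring -/
theorem wt_RM {ℓ : ℕ} [hℓ : Fact ℓ.Prime] (hM : (ℓ : integralClosure ℤ ℂ) ∈ M)
    (hInx : K9.InxStmt) {G : Type} [Group G] [Finite G] {e : G → FF M} {V : Subgroup G}
    {γ : G → FF M} (hLd : Ld ℓ e V γ) {v : G} (hv : v ∈ V) : wt V γ v ∈ RM M := by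
  have hix : ¬ ℓ ∣ (Subgroup.centralizer (V : Set G)).relIndex (Tg V γ) :=
    hInx ℓ M hM G e hLd.blk V hLd.tp hLd.ab γ hLd.gam.supp hLd.gam.blk hLd.und
  have hCT := cen_le_Tg hLd.gam
  have h1 : ∀ X : Subgroup G, Subgroup.centralizer (V : Set G) ≤ X →
      (Nat.card X : ℂ) = Nat.card (Subgroup.centralizer (V : Set G)) *
        ((Subgroup.centralizer (V : Set G)).relIndex X : ℕ) := by
    intro X hX
    rw [← Nat.cast_mul]
    congr 1
    have := Subgroup.card_mul_index ((Subgroup.centralizer (V : Set G)).subgroupOf X)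
    rw [Nat.card_congr (Subgroup.subgroupOfEquivOfLe hX).toEquiv] at this
    exact this.symm
  have h2 : (Nat.card (Subgroup.centralizer (V : Set G)) : ℂ) ≠ 0 :=
    Nat.cast_ne_zero.2 Nat.card_pos.ne'
  unfold wt
  rw [h1 _ hCT, h1 _ (le_inf hCT (cen_le_Cu hv)), mul_div_mul_left _ _ h2, div_eq_mul_inv]
  exact (RM M).mul_mem (rr_nat _).1 (inv_nat_RM hℓ.out hM hix)

theorem lc_of_cu {G : Type} [Group G] {F : Type} [Field F] {e : G → F} {V : Subgroup G}
    {γ : G → F} {u u' : G} {b : G → F} (h : Cu u' = Cu u) (hb : Lc e V γ u b) :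
    Lc e V γ u' b where
  blk := by rw [h]; exact hb.blk
  und := by rw [h]; exact hb.und
  gam := hb.gam

theorem apx (hCna : CnaStmt) (hLwd : LwdStmt) (hYex : YexStmt) (hTrn : TrnStmt)
    (hAps : ApsStmt) (hLoc : T3.LocStmt) (hPwu : T2.PwuStmt) (hInx : K9.InxStmt) : ApxStmt := by
  intro ℓ hℓ M _ hM G _ _ N hN e V γ hLd c χ hχ χ' hχ' v hv z hz b b' hb hb'
  have hF : GoodF ℓ (FF M) := H50.fld ℓ Fact.out M hM
  obtain ⟨V₁, hV₁⟩ : ∃ V₁, V₁ = Uw (ℓ ^ c) V := ⟨_, rfl⟩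
  obtain ⟨W, hW⟩ : ∃ W, W = Uw (ℓ ^ (2 * c)) V := ⟨_, rfl⟩
  have hV₁V : V₁ ≤ V := hV₁ ▸ (hPwu G (ℓ ^ c) V hLd.ab).2.1
  have hWV : W ≤ V := hW ▸ (hPwu G (ℓ ^ (2 * c)) V hLd.ab).2.1
  obtain ⟨hZ1, hZV, hZN, -⟩ := hPwu G (ℓ ^ (3 * c + 1)) V hLd.ab
  obtain ⟨⟨f, hf⟩, hL⟩ := hLwd ℓ M hM G e V γ hLd W hWV
  obtain ⟨hLdf, -⟩ := hL f hf
  obtain ⟨y, hyR, hyV, hyf, hyω⟩ := hYex ℓ M hM G e V γ hLd W hWV f hf
  have hω := hyω χ' hχ'.1
  have hVH : V ≤ Subgroup.centralizer (W : Set G) := by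
    intro x hx
    exact Subgroup.mem_centralizer_iff.2 fun w hw => hLd.ab w (hWV hw) x hx
  have hCg := hCna ℓ M hM G N hN χ hχ.1.1 hχ.2
  have hCg' := hCna ℓ M hM G N hN χ' hχ'.1.1 hχ'.2
  have hex : ∀ v' : Subgroup.centralizer (W : Set G),
      ∃ g' : Subgroup.centralizer (W : Set G) → FF M, (v' : G) ∈ V →
      Lc (fun t : Subgroup.centralizer (W : Set G) => f t)
      (V.subgroupOf (Subgroup.centralizer (W : Set G)))
      (fun t : Subgroup.centralizer (W : Set G) => γ t) v' g' := by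
    intro v'
    by_cases h : (v' : G) ∈ V
    · obtain ⟨g', hg'⟩ := (hLoc ℓ (FF M) hF _ _ _ _ hLdf v' (Subgroup.mem_subgroupOf.2 h)).1
      exact ⟨g', fun _ => hg'⟩
    · exact ⟨0, fun h' => absurd h' h⟩
  choose g hg using hex
  have hS := hAps ℓ M hM G e V γ hLd c V₁ W hV₁ hW f hf g hg y hyR hyV hyf χ hχ.1.1 χ' hχ'.1.1
    v hv b hb
  have hvz : v * z ∈ V := V.mul_mem hv (hZV hz)
  have hSz := hAps ℓ M hM G e V γ hLd c V₁ W hV₁ hW f hf g hg y hyR hyV hyf χ hχ.1.1 χ'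
    hχ'.1.1 (v * z) hvz b' hb'
  -- the function on the orbit
  obtain ⟨NN, hNN⟩ : ∃ NN : Subgroup.centralizer (W : Set G) → ℂ, NN = fun v' =>
      ∑ᶠ (h : Subgroup.centralizer (W : Set G))
          (_ : (h : G) ∈ Subgroup.centralizer (V₁ : Set G)),
          sv M ℓ v' (g v') (fun t : Subgroup.centralizer (W : Set G) => χ t) h *
            T8.fv y h⁻¹ (fun t : Subgroup.centralizer (W : Set G) => χ' t) := ⟨_, rfl⟩
  obtain ⟨φ, hφ⟩ : ∃ φ : Subgroup.centralizer (W : Set G) → ℂ, φ = fun v' =>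
      wt (V.subgroupOf (Subgroup.centralizer (W : Set G)))
          (fun t : Subgroup.centralizer (W : Set G) => γ t) v' * NN v' := ⟨_, rfl⟩
  have hCT := cen_le_Tg hLd.gam
  have hTN : ∀ t ∈ Tg V γ, ∀ x ∈ V, t * x * t⁻¹ ∈ V := fun t ht x hx =>
    (Subgroup.mem_normalizer_iff.1 ht.1 x).1 hx
  -- the congruence for one element
  have key : ∀ u zz : Subgroup.centralizer (W : Set G), (u : G) ∈ V →
      (zz : G) ∈ Uw (ℓ ^ (3 * c + 1)) V → Dv M ((ℓ : ℂ) ^ c) (φ (u * zz) - φ u) := by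
    intro u zz hu hzz
    obtain ⟨x, hx, hxz⟩ := (hZ1 (zz : G)).1 hzz
    have hxW : x ^ ℓ ^ (2 * c) ∈ W := by
      rw [hW]
      exact ((hPwu G (ℓ ^ (2 * c)) V hLd.ab).1 _).2 ⟨x, hx, rfl⟩
    obtain ⟨w, hw⟩ : ∃ w : Subgroup.centralizer (W : Set G), (w : G) = x ^ ℓ ^ (2 * c) :=
      ⟨⟨_, hVH (hWV hxW)⟩, rfl⟩
    have hwz : w ^ ℓ ^ (c + 1) = zz := by
      refine Subtype.ext ?_
      rw [Subgroup.coe_pow, hw, hxz, ← pow_mul, ← pow_add]
      congr 2
      ring
    have hwcen : w ∈ Subgroup.center (Subgroup.centralizer (W : Set G)) := by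
      refine Subgroup.mem_center_iff.2 fun h => Subtype.ext ?_
      change (h : G) * (w : G) = w * h
      rw [hw]
      exact (Subgroup.mem_centralizer_iff.1 h.2 _ hxW).symm
    have hzc : zz ∈ Subgroup.center (Subgroup.centralizer (W : Set G)) := by
      rw [← hwz]
      exact Subgroup.pow_mem _ hwcen _
    have hCu : Cu (u * zz) = Cu u := by
      ext h
      have h1 := Subgroup.mem_center_iff.1 hzc
      rw [Subgroup.mem_centralizer_iff, Subgroup.mem_centralizer_iff]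
      constructor
      · intro h2 a ha
        rw [Set.mem_singleton_iff.1 ha]
        have h3 := h2 (u * zz) rfl
        rw [mul_assoc, ← h1 h, ← mul_assoc, ← mul_assoc] at h3
        exact mul_right_cancel h3
      · intro h2 a ha
        rw [Set.mem_singleton_iff.1 ha]
        have h3 := h2 u rfl
        rw [mul_assoc, ← h1 h, ← mul_assoc, ← mul_assoc, h3]
    have huz : ((u * zz : Subgroup.centralizer (W : Set G)) : G) ∈ V :=
      V.mul_mem hu (hZV hzz)
    have hgu : g (u * zz) = g u :=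
      (hLoc ℓ (FF M) hF _ _ _ _ hLdf (u * zz) (Subgroup.mem_subgroupOf.2 huz)).2 _ _
        (hg _ huz) (lc_of_cu hCu (hg u hu))
    have hwt : wt (V.subgroupOf (Subgroup.centralizer (W : Set G)))
          (fun t : Subgroup.centralizer (W : Set G) => γ t) (u * zz) =
        wt (V.subgroupOf (Subgroup.centralizer (W : Set G)))
          (fun t : Subgroup.centralizer (W : Set G) => γ t) u := by
      unfold wt
      rw [hCu]
    have hEl : El ℓ w := by
      obtain ⟨n, hn⟩ : ∃ n : ℕ, (⟨x, hx⟩ : V) ^ ℓ ^ n = 1 := hLd.tp.1 ⟨x, hx⟩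
      refine ⟨n, Subtype.ext ?_⟩
      have h1 : x ^ ℓ ^ n = 1 := congrArg Subtype.val hn
      rw [Subgroup.coe_pow, hw, ← pow_mul, mul_comm, pow_mul, h1, one_pow]
      rfl
    have hT := hTrn ℓ M hM (Subgroup.centralizer (W : Set G))
      (fun t : Subgroup.centralizer (W : Set G) => χ t)
      (fun t : Subgroup.centralizer (W : Set G) => χ' t) (cg_res hCg _) (cg_res hCg' _) w hEl
      hwcen c u (g u) (hg u hu).blk.ix y hyR
      {h | (h : G) ∈ Subgroup.centralizer (V₁ : Set G)} (by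
        intro h
        rw [hwz]
        have h1 : (zz : G) ∈ Subgroup.centralizer (V₁ : Set G) :=
          Subgroup.mem_centralizer_iff.2 fun a ha => hLd.ab a (hV₁V ha) _ (hZV hzz)
        exact ((Subgroup.centralizer (V₁ : Set G)).mul_mem_cancel_right h1).symm)
    rw [hwz] at hT
    have hdiff : φ (u * zz) - φ u =
        wt (V.subgroupOf (Subgroup.centralizer (W : Set G)))
          (fun t : Subgroup.centralizer (W : Set G) => γ t) u * (NN (u * zz) - NN u) := by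
      rw [hφ]
      simp only []
      rw [hwt]
      ring
    rw [hdiff]
    refine dv_mul (wt_RM hM hInx hLdf (Subgroup.mem_subgroupOf.2 hu)) ?_
    rw [hNN]
    simp only []
    rw [hgu]
    exact hT
  -- the sums over the orbits
  have hH : ∀ x ∈ V, ∀ t ∈ Tg V γ, t * x * t⁻¹ ∈ Subgroup.centralizer (W : Set G) :=
    fun x hx t ht => hVH (hTN t ht x hx)
  have ho := orbit_cosets v (le_inf hCT (cen_le_Cu hv)) (hH v hv) φ
  have hoz := orbit_cosets (v * z) (le_inf hCT (cen_le_Cu hvz)) (hH _ hvz) φ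
  have hD : Dv M ((ℓ : ℂ) ^ c)
      ((((Subgroup.centralizer (V : Set G)).relIndex (Tg V γ ⊓ Cu (v * z)) : ℕ) : ℂ) *
        ∑ᶠ (v' : Subgroup.centralizer (W : Set G)) (_ : ∃ t ∈ Tg V γ, t * (v * z) * t⁻¹ = v'),
          φ v' -
        (((Subgroup.centralizer (V : Set G)).relIndex (Tg V γ ⊓ Cu v) : ℕ) : ℂ) *
        ∑ᶠ (v' : Subgroup.centralizer (W : Set G)) (_ : ∃ t ∈ Tg V γ, t * v * t⁻¹ = v'),
          φ v') := by
    classical
    have : Fintype (Tg V γ ⧸ (Subgroup.centralizer (V : Set G)).subgroupOf (Tg V γ)) :=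
      Fintype.ofFinite _
    rw [ho, hoz, finsum_eq_sum_of_fintype, finsum_eq_sum_of_fintype, ← Finset.sum_sub_distrib]
    refine dv_sum _ _ fun q _ => ?_
    have hq := (q.out : Tg V γ).2
    have h1 := key ⟨_, hH v hv _ hq⟩ ⟨_, hH z (hZV hz) _ hq⟩ (hTN _ hq v hv)
      ((Subgroup.mem_normalizer_iff.1 (hZN hq.1) z).1 hz)
    have h2 : (⟨_, hH (v * z) hvz _ hq⟩ : Subgroup.centralizer (W : Set G)) =
        ⟨_, hH v hv _ hq⟩ * ⟨_, hH z (hZV hz) _ hq⟩ := by
      refine Subtype.ext ?_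
      change ((q.out : Tg V γ) : G) * (v * z) * ((q.out : Tg V γ) : G)⁻¹ =
        (((q.out : Tg V γ) : G) * v * ((q.out : Tg V γ) : G)⁻¹) *
          (((q.out : Tg V γ) : G) * z * ((q.out : Tg V γ) : G)⁻¹)
      group
    rw [h2]
    exact h1
  obtain ⟨ω, hωe⟩ : ∃ ω : ℂ, ω = (Nat.card G *
      (∑ᶠ x : Subgroup.centralizer (W : Set G), y x * χ' x) / (Nat.card V * χ' 1)) := ⟨_, rfl⟩
  rw [← hωe] at hω hS hSz
  obtain ⟨hi, h0⟩ := inv_RM hω.1 hω.2
  rw [hφ, hNN] at hD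
  have h3 := dv_mul hi (dv_add (dv_sub hSz hS) hD)
  have h4 : Mm M ℓ V γ (v * z) b' χ χ' - Mm M ℓ V γ v b χ χ' =
      ω⁻¹ * (ω * Mm M ℓ V γ (v * z) b' χ χ' - ω * Mm M ℓ V γ v b χ χ') := by
    field_simp
  rw [h4]
  refine (congrArg (Dv M ((ℓ : ℂ) ^ c)) (congrArg (ω⁻¹ * ·) ?_)).mp h3
  ring

end main

end Pool.Agent.PP.T6.H3
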